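import Pool.Agent.Run7.h47.V.Iface

/-! Piece IBP of the project VI of helper47: Poincaré inequality, integration by parts, dependence on
the imaginary part. -/

set_option autoImplicit false
set_option linter.unusedSectionVars false

open scoped BigOperators Matrix
open MeasureTheory

namespace Pool.Agent.Run7.h824.V

open Pool.Agent.Run7.h47 Pool.Agent.Run7.h47.V
open Pool.Agent.W788.MFP.Four Pool.Agent.W788.MFP.Form Pool.Agent.W788.BK
open Pool.Agent.W788.MFP.Gm (Γ)

variable {d L : ℕ} [NeZero L] {c σ : ℝ} {X : T d L → ℂ}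

theorem poin1 (hc : 0 < c) (h : Dis c X) :
    VX X σ ≤ 15 * σ ^ 2 *
      ∫ V, ∑ y, ‖RX X σ V 0 y‖ ^ 2 * ‖RX X σ V y 0‖ ^ 2 ∂(Γ (T d L)) := by
  have h1 := (RX_regE (σ := σ) hc h (0 : T d L) 0).poin
  unfold VX mX
  refine h1.trans (le_of_eq ?_)
  rw [mul_assoc]
  congr 1
  rw [← integral_const_mul]
  refine integral_congr_ae (Filter.Eventually.of_forall fun V => ?_)
  simp only
  rw [Finset.mul_sum]
  refine Finset.sum_congr rfl fun y _ => ?_
  rw [norm_neg, norm_mul, norm_mul, Complex.norm_real, Real.norm_eq_abs, mul_pow, mul_pow, sq_abs]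

theorem int_RX (hc : 0 < c) (h : Dis c X) (a x y : T d L) :
    ∫ V, RX X σ V (x + a) (y + a) ∂(Γ (T d L)) = ∫ V, RX X σ V x y ∂(Γ (T d L)) := by
  have h1 := int_shift (f := fun V : T d L → ℝ => RX X σ V x y) (RX_cont hc h σ x y) a
  simp only [RX_shift] at h1
  exact h1

theorem int_diag (hc : 0 < c) (h : Dis c X) (x : T d L) :
    ∫ V, RX X σ V x x ∂(Γ (T d L)) = mX X σ := by
  have h1 := int_RX (σ := σ) hc h x 0 0
  rw [zero_add] at h1
  exact h1

theorem int_var (hc : 0 < c) (h : Dis c X) (x : T d L) :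
    ∫ V, ‖RX X σ V x x - mX X σ‖ ^ 2 ∂(Γ (T d L)) = VX X σ := by
  have h1 := int_shiftR (f := fun V : T d L → ℝ => ‖RX X σ V 0 0 - mX X σ‖ ^ 2)
    (((RX_cont hc h σ 0 0).sub continuous_const).norm.pow 2) x
  simp only [RX_shift, zero_add] at h1
  exact h1

theorem CV_col (X : T d L → ℂ) (k y z : T d L) :
    ∑ x, CV X x z * e k (y - x) = X k * e k (y - z) := by
  have h1 : ∀ x, e k (y - x) = e k y * e (-k) x := fun x => by
    rw [sub_eq_add_neg, e_add, e_neg, e_neg_left]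
  simp only [h1]
  have h2 := CV_e (fun q => X (-q)) (-k) z
  simp only [neg_neg] at h2
  have h3 : ∀ x, CV (fun q => X (-q)) z x = CV X x z := fun x => by
    rw [← CV_transpose]
    rfl
  simp only [h3] at h2
  calc ∑ x, CV X x z * (e k y * e (-k) x) = e k y * ∑ x, CV X x z * e (-k) x := by
        rw [Finset.mul_sum]
        exact Finset.sum_congr rfl fun x _ => by ring
    _ = X k * (e k y * e (-k) z) := by
        rw [h2]
        ring

theorem path1 (hc : 0 < c) (h : Dis c X) (σ : ℝ) (V : T d L → ℝ) (k y : T d L) :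
    X k * ∑ x, RX X σ V x y * e k (y - x) +
      σ * ∑ x, ((V x : ℂ) * RX X σ V x y) * e k (y - x) = 1 := by
  have h1 : ∀ x, ∑ z, CV X x z * RX X σ V z y + σ * V x * RX X σ V x y =
      if x = y then 1 else 0 := by
    intro x
    have h2 := congrFun (congrFun (HX_mul hc h σ V) x) y
    rw [Matrix.mul_apply, Matrix.one_apply] at h2
    rw [← h2]
    unfold HX
    simp only [Matrix.add_apply, add_mul]
    rw [Finset.sum_add_distrib]
    congr 1
    rw [Finset.sum_eq_single x]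
    · rw [Matrix.diagonal_apply_eq]
    · intro z _ hz
      rw [Matrix.diagonal_apply_ne _ hz.symm, zero_mul]
    · intro hh
      exact absurd (Finset.mem_univ _) hh
  have h3 : ∑ x, (∑ z, CV X x z * RX X σ V z y + σ * V x * RX X σ V x y) * e k (y - x) = 1 := by
    simp only [h1]
    rw [Finset.sum_eq_single y]
    · rw [if_pos rfl, sub_self, e_zero, one_mul]
    · intro x _ hx
      rw [if_neg hx, zero_mul]
    · intro hh
      exact absurd (Finset.mem_univ _) hh
  rw [← h3]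
  simp only [add_mul]
  rw [Finset.sum_add_distrib]
  congr 1
  · have h4 : ∀ x, (∑ z, CV X x z * RX X σ V z y) * e k (y - x) =
        ∑ z, RX X σ V z y * (CV X x z * e k (y - x)) := fun x => by
      rw [Finset.sum_mul]
      exact Finset.sum_congr rfl fun z _ => by ring
    simp only [h4]
    rw [Finset.sum_comm]
    simp only [← Finset.mul_sum, CV_col]
    rw [Finset.mul_sum]
    exact Finset.sum_congr rfl fun z _ => by ring
  · rw [Finset.mul_sum]
    exact Finset.sum_congr rfl fun x _ => by ring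

theorem int_VRX (hc : 0 < c) (h : Dis c X) (x y : T d L) :
    Integrable (fun V : T d L → ℝ => (V x : ℂ) * RX X σ V x y) (Γ (T d L)) :=
  ((St.eval_integrable x).ofReal (𝕜 := ℂ)).mul_bdd (c := c⁻¹)
    (RX_cont hc h σ x y).aestronglyMeasurable
    (Filter.Eventually.of_forall fun V => RX_bd hc h σ V x y)

theorem ibp1 (hc : 0 < c) (h : Dis c X) (x y : T d L) :
    ∫ V, (V x : ℂ) * RX X σ V x y ∂(Γ (T d L)) =
      -(σ * ∫ V, RX X σ V x x * RX X σ V x y ∂(Γ (T d L))) := by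
  rw [(RX_regE (σ := σ) hc h x y).ibp x, integral_neg, integral_const_mul]

theorem mean1 (hc : 0 < c) (h : Dis c X) (k y : T d L) :
    X k * ∑ x, (∫ V, RX X σ V x y ∂(Γ (T d L))) * e k (y - x) =
      1 + σ ^ 2 * ∑ x, (∫ V, RX X σ V x x * RX X σ V x y ∂(Γ (T d L))) * e k (y - x) := by
  have h1 : ∫ V, (X k * ∑ x, RX X σ V x y * e k (y - x) +
      σ * ∑ x, ((V x : ℂ) * RX X σ V x y) * e k (y - x)) ∂(Γ (T d L)) = 1 := by
    have : ∀ V : T d L → ℝ, X k * ∑ x, RX X σ V x y * e k (y - x) +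
      σ * ∑ x, ((V x : ℂ) * RX X σ V x y) * e k (y - x) = 1 := fun V => path1 hc h σ V k y
    simp only [this]
    simp
  have i1 : ∀ x, Integrable (fun V : T d L → ℝ => RX X σ V x y * e k (y - x)) (Γ (T d L)) :=
    fun x => (RX_BC hc h σ x y).int.mul_const _
  have i2 : ∀ x, Integrable (fun V : T d L → ℝ => ((V x : ℂ) * RX X σ V x y) * e k (y - x))
      (Γ (T d L)) := fun x => (int_VRX hc h x y).mul_const _
  have j1 : Integrable (fun V : T d L → ℝ => ∑ x, RX X σ V x y * e k (y - x)) (Γ (T d L)) :=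
    integrable_finsetSum _ fun x _ => i1 x
  have j2 : Integrable (fun V : T d L → ℝ => ∑ x, ((V x : ℂ) * RX X σ V x y) * e k (y - x))
      (Γ (T d L)) := integrable_finsetSum _ fun x _ => i2 x
  rw [integral_add (j1.const_mul _) (j2.const_mul _), integral_const_mul, integral_const_mul,
    integral_finsetSum _ fun x _ => i1 x, integral_finsetSum _ fun x _ => i2 x] at h1
  simp only [integral_mul_const, ibp1 hc h] at h1
  rw [← h1]
  rw [Finset.mul_sum (s := Finset.univ) (a := (σ : ℂ)), Finset.mul_sum (a := (σ : ℂ) ^ 2),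
    add_assoc, ← Finset.sum_add_distrib]
  have h5 : ∑ x, ((σ : ℂ) * (-(σ * ∫ V, RX X σ V x x * RX X σ V x y ∂(Γ (T d L))) * e k (y - x)) +
      (σ : ℂ) ^ 2 * ((∫ V, RX X σ V x x * RX X σ V x y ∂(Γ (T d L))) * e k (y - x))) = 0 :=
    Finset.sum_eq_zero fun x _ => by ring
  rw [h5, add_zero]

theorem card_c : (Fintype.card (T d L) : ℂ) = (NN d L : ℂ) := by
  rw [← card_T]
  push_cast
  rfl

theorem mean2 (hc : 0 < c) (h : Dis c X) (k : T d L) :
    X k * GX X σ k = 1 + σ ^ 2 * ((NN d L : ℂ)⁻¹ * ∑ x, ∑ y,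
      (∫ V, RX X σ V x x * RX X σ V x y ∂(Γ (T d L))) * e k (y - x)) := by
  have h1 : ∑ y, X k * ∑ x, (∫ V, RX X σ V x y ∂(Γ (T d L))) * e k (y - x) =
      ∑ y, (1 + σ ^ 2 * ∑ x, (∫ V, RX X σ V x x * RX X σ V x y ∂(Γ (T d L))) * e k (y - x)) :=
    Finset.sum_congr rfl fun y _ => mean1 hc h k y
  rw [← Finset.mul_sum, Finset.sum_add_distrib, ← Finset.mul_sum, Finset.sum_const,
    Finset.card_univ, nsmul_eq_mul, mul_one, card_c] at h1
  rw [Finset.sum_comm, Finset.sum_comm (f := fun y x =>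
    (∫ V, RX X σ V x x * RX X σ V x y ∂(Γ (T d L))) * e k (y - x))] at h1
  unfold GX
  have hN : (NN d L : ℂ) ≠ 0 := NNc_ne
  have h2 : X k * ((NN d L : ℂ)⁻¹ * ∑ x, ∑ y, (∫ V, RX X σ V x y ∂(Γ (T d L))) * e k (y - x)) =
      (NN d L : ℂ)⁻¹ * (X k * ∑ x, ∑ y, (∫ V, RX X σ V x y ∂(Γ (T d L))) * e k (y - x)) := by ring
  rw [h2, h1, mul_add, inv_mul_cancel₀ hN]
  ring

/-- the error term -/
noncomputable def rr (X : T d L → ℂ) (σ : ℝ) (k : T d L) : ℂ :=
  (NN d L : ℂ)⁻¹ * ∫ V, ∑ x, ((RX X σ V x x - mX X σ) * (starRingEnd ℂ) (e k x)) *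
    (RX X σ V *ᵥ fun y => e k y) x ∂(Γ (T d L))

theorem rr_eq (hc : 0 < c) (h : Dis c X) (k : T d L) :
    (NN d L : ℂ)⁻¹ * ∑ x, ∑ y, (∫ V, RX X σ V x x * RX X σ V x y ∂(Γ (T d L))) * e k (y - x) =
      mX X σ * GX X σ k + rr X σ k := by
  unfold rr GX
  have h1 : ∀ V : T d L → ℝ, ∑ x, ((RX X σ V x x - mX X σ) * (starRingEnd ℂ) (e k x)) *
      (RX X σ V *ᵥ fun y => e k y) x =
      ∑ x, ∑ y, (RX X σ V x x * RX X σ V x y - mX X σ * RX X σ V x y) * e k (y - x) := by
    intro V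
    refine Finset.sum_congr rfl fun x _ => ?_
    unfold Matrix.mulVec dotProduct
    rw [Finset.mul_sum]
    refine Finset.sum_congr rfl fun y _ => ?_
    rw [sub_eq_add_neg y x, e_add, e_neg]
    ring
  have b : ∀ x y, BC fun V : T d L → ℝ =>
      (RX X σ V x x * RX X σ V x y - mX X σ * RX X σ V x y) * e k (y - x) := fun x y =>
    (((RX_BC hc h σ x x).mul (RX_BC hc h σ x y)).sub
      ((BC.const (mX X σ)).mul (RX_BC hc h σ x y))).mul (BC.const _)
  simp only [h1]
  rw [integral_finsetSum _ fun x _ => (BC.sum (A := ℂ) Finset.univ fun y _ => b x y).int]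
  have h2 : ∀ x, ∫ V, ∑ y, (RX X σ V x x * RX X σ V x y - mX X σ * RX X σ V x y) *
      e k (y - x) ∂(Γ (T d L)) = ∑ y, ((∫ V, RX X σ V x x * RX X σ V x y ∂(Γ (T d L))) -
        mX X σ * ∫ V, RX X σ V x y ∂(Γ (T d L))) * e k (y - x) := by
    intro x
    rw [integral_finsetSum _ fun y _ => (b x y).int]
    refine Finset.sum_congr rfl fun y _ => ?_
    rw [integral_mul_const, integral_sub ((RX_BC hc h σ x x).mul (RX_BC hc h σ x y)).int
      ((BC.const (mX X σ)).mul (RX_BC hc h σ x y)).int, integral_const_mul]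
  simp only [h2]
  have h3 : mX X σ * ((NN d L : ℂ)⁻¹ * ∑ x, ∑ y, (∫ V, RX X σ V x y ∂(Γ (T d L))) * e k (y - x)) =
      (NN d L : ℂ)⁻¹ * ∑ x, ∑ y, (mX X σ * ∫ V, RX X σ V x y ∂(Γ (T d L))) * e k (y - x) := by
    rw [← mul_assoc, mul_comm (mX X σ), mul_assoc, Finset.mul_sum]
    congr 1
    refine Finset.sum_congr rfl fun x _ => ?_
    rw [Finset.mul_sum]
    exact Finset.sum_congr rfl fun y _ => by ring
  rw [h3, ← mul_add, ← Finset.sum_add_distrib]
  congr 1
  refine Finset.sum_congr rfl fun x _ => ?_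
  rw [← Finset.sum_add_distrib]
  exact Finset.sum_congr rfl fun y _ => by ring

theorem rr_le (hc : 0 < c) (h : Dis c X) (k : T d L) :
    ‖rr X σ k‖ ^ 2 ≤ VX X σ * NX X σ k := by
  have ba : ∀ x, BC fun V : T d L → ℝ => (RX X σ V x x - mX X σ) * (starRingEnd ℂ) (e k x) :=
    fun x => ((RX_BC hc h σ x x).sub (BC.const _)).mul (BC.const _)
  have bb : ∀ x, BC fun V : T d L → ℝ => (RX X σ V *ᵥ fun y => e k y) x := fun x => by
    unfold Matrix.mulVec dotProduct
    exact BC.sum _ fun y _ => (RX_BC hc h σ x y).mul (BC.const _)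
  have h1 := csI (κ := T d L) (ι := T d L) _ _ ba bb
  have h2 : ∫ V, ∑ x, ‖(RX X σ V x x - mX X σ) * (starRingEnd ℂ) (e k x)‖ ^ 2 ∂(Γ (T d L)) =
      NN d L * VX X σ := by
    rw [integral_finsetSum _ fun x _ => (ba x).nsq.intR]
    have h3 : ∀ x, ∫ V, ‖(RX X σ V x x - mX X σ) * (starRingEnd ℂ) (e k x)‖ ^ 2 ∂(Γ (T d L)) =
        VX X σ := fun x => by
      simp only [norm_mul, RCLike.norm_conj, norm_e, mul_one]
      exact int_var hc h x
    simp only [h3]
    rw [Finset.sum_const, Finset.card_univ, nsmul_eq_mul, card_T]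
  have h4 : ∫ V, ∑ x, ‖(RX X σ V *ᵥ fun y => e k y) x‖ ^ 2 ∂(Γ (T d L)) =
      NN d L * NX X σ k := by
    unfold NX
    rw [← mul_assoc, mul_inv_cancel₀ NN_pos.ne', one_mul]
    rfl
  rw [h2, h4] at h1
  unfold rr
  rw [norm_mul, mul_pow, norm_inv, Complex.norm_real, Real.norm_eq_abs, abs_of_pos NN_pos]
  have hN : (0 : ℝ) < NN d L := NN_pos
  calc (NN d L)⁻¹ ^ 2 * _ ≤ (NN d L)⁻¹ ^ 2 * (NN d L * VX X σ * (NN d L * NX X σ k)) :=
        mul_le_mul_of_nonneg_left h1 (by positivity)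
    _ = VX X σ * NX X σ k := by
        field_simp

theorem mX_sum (hc : 0 < c) (h : Dis c X) :
    mX X σ = (NN d L : ℂ)⁻¹ * ∑ k, GX X σ k := by
  have hN : (NN d L : ℂ) ≠ 0 := NNc_ne
  have h1 : ∑ k, GX X σ k = NN d L * mX X σ := by
    unfold GX
    rw [← Finset.mul_sum, Finset.sum_comm]
    have h2 : ∀ x, ∑ k, ∑ y, (∫ V, RX X σ V x y ∂(Γ (T d L))) * e k (y - x) =
        NN d L * mX X σ := by
      intro x
      rw [Finset.sum_comm]
      simp only [← Finset.mul_sum, sum_e]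
      rw [Finset.sum_eq_single x]
      · rw [sub_self, if_pos rfl, int_diag hc h, mul_comm]
      · intro y _ hy
        rw [if_neg (sub_ne_zero.2 hy), mul_zero]
      · intro hh
        exact absurd (Finset.mem_univ _) hh
    simp only [h2]
    rw [Finset.sum_const, Finset.card_univ, nsmul_eq_mul, card_c, ← mul_assoc, ← mul_assoc,
      inv_mul_cancel₀ hN, one_mul]
  rw [h1, ← mul_assoc, inv_mul_cancel₀ hN, one_mul]

theorem RX_im (hc : 0 < c) (h : Dis c X) (σ : ℝ) (V : T d L → ℝ) (x : T d L) :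
    0 ≤ (RX X σ V x x).im := by
  have h1 := form_im X σ V (RX X σ V *ᵥ Pi.single x 1)
  rw [HX_RX hc h, Matrix.mulVec_single_one] at h1
  have h2 : ∑ y, (starRingEnd ℂ) ((RX X σ V).col x y) * (Pi.single x 1 : T d L → ℂ) y =
      (starRingEnd ℂ) (RX X σ V x x) := by
    rw [Finset.sum_eq_single x]
    · rw [Pi.single_eq_same, mul_one]
      rfl
    · intro y _ hy
      rw [Pi.single_eq_of_ne hy, mul_zero]
    · intro hh
      exact absurd (Finset.mem_univ _) hh
  rw [h2, Complex.conj_im] at h1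
  have h3 : wf (fun k => (X k).im) ((RX X σ V).col x) ≤ 0 := by
    have h4 : wf (fun k => (X k).im) ((RX X σ V).col x) ≤ wf (fun _ => 0) ((RX X σ V).col x) :=
      wf_mono _ fun k => (h k).trans (by linarith)
    refine h4.trans (le_of_eq ?_)
    unfold wf
    simp
  linarith

theorem mX_im (hc : 0 < c) (h : Dis c X) : 0 ≤ (mX X σ).im := by
  unfold mX
  have e2 := integral_im (RX_BC hc h σ (0 : T d L) 0).int
  simp only [RCLike.im_to_complex] at e2
  rw [← e2]
  exact integral_nonneg fun V => RX_im hc h σ V 0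

theorem mX_bd (hc : 0 < c) (h : Dis c X) : ‖mX X σ‖ ≤ c⁻¹ := by
  unfold mX
  have h1 := norm_integral_le_of_norm_le_const (μ := Γ (T d L))
    (Filter.Eventually.of_forall fun V => RX_bd hc h σ V (0 : T d L) 0)
  simpa using h1

theorem RX_row (hc : 0 < c) (h : Dis c X) (σ : ℝ) (V : T d L → ℝ) (x : T d L) :
    ∑ y, ‖RX X σ V x y‖ ^ 2 ≤ (c ^ 2)⁻¹ := by
  have h1 := RX_col hc h.neg σ V x
  refine le_trans (le_of_eq ?_) h1
  refine Finset.sum_congr rfl fun y _ => ?_
  rw [RX_swap]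

theorem CV_sub_I (X : T d L → ℂ) (s : ℝ) :
    CV (fun k => X k - s * Complex.I) = CV X - (s * Complex.I) • (1 : Matrix (T d L) (T d L) ℂ) := by
  have h1 := CV_add X (fun _ => -(s * Complex.I) * 1)
  rw [CV_smul, CV_one] at h1
  rw [sub_eq_add_neg, ← neg_smul, ← h1]
  congr 1
  funext k
  ring

theorem Dis.shift (h : Dis c X) {s : ℝ} (hs : 0 ≤ s) : Dis c fun k => X k - s * Complex.I := by
  intro k
  have h1 := h k
  have h2 : (X k - s * Complex.I).im = (X k).im - s := by simp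
  show (X k - s * Complex.I).im ≤ -c
  rw [h2]
  linarith

theorem RX_shift_bd (hc : 0 < c) (h : Dis c X) {s t : ℝ} (hs : 0 ≤ s) (ht : 0 ≤ t)
    (V : T d L → ℝ) :
    ‖RX (fun k => X k - s * Complex.I) σ V 0 0 - RX (fun k => X k - t * Complex.I) σ V 0 0‖ ≤
      |s - t| * (c ^ 2)⁻¹ := by
  have hS := Dis.shift h hs
  have hT := Dis.shift h ht
  set A := RX (fun k => X k - s * Complex.I) σ V with hA
  set B := RX (fun k => X k - t * Complex.I) σ V with hB
  have h1 : A - B = (((s - t : ℝ) : ℂ) * Complex.I) • (A * B) := by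
    have e1 : HX (fun k => X k - t * Complex.I) σ V - HX (fun k => X k - s * Complex.I) σ V =
        (((s - t : ℝ) : ℂ) * Complex.I) • (1 : Matrix (T d L) (T d L) ℂ) := by
      unfold HX
      rw [CV_sub_I, CV_sub_I, add_sub_add_right_eq_sub, sub_sub_sub_cancel_left, ← sub_smul]
      congr 1
      push_cast
      ring
    have e2 : A * (HX (fun k => X k - t * Complex.I) σ V -
        HX (fun k => X k - s * Complex.I) σ V) * B = A - B := by
      rw [mul_sub, mul_HX hc hS, sub_mul, one_mul, mul_assoc, HX_mul hc hT, mul_one]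
    rw [← e2, e1]
    simp
  have h2 : A 0 0 - B 0 0 = (((s - t : ℝ) : ℂ) * Complex.I) * ∑ y, A 0 y * B y 0 := by
    have := congrFun (congrFun h1 0) 0
    rw [Matrix.sub_apply, Matrix.smul_apply, Matrix.mul_apply, smul_eq_mul] at this
    exact this
  rw [h2, norm_mul, norm_mul, Complex.norm_I, mul_one, Complex.norm_real, Real.norm_eq_abs]
  refine mul_le_mul_of_nonneg_left ?_ (abs_nonneg _)
  refine (norm_sum_le _ _).trans ?_
  have h3 : ∀ y, ‖A 0 y * B y 0‖ ≤ (‖A 0 y‖ ^ 2 + ‖B y 0‖ ^ 2) / 2 := fun y => by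
    rw [norm_mul]
    nlinarith [sq_nonneg (‖A 0 y‖ - ‖B y 0‖)]
  refine (Finset.sum_le_sum fun y _ => h3 y).trans ?_
  rw [← Finset.sum_div, Finset.sum_add_distrib]
  have h4 := RX_row hc hS σ V (0 : T d L)
  have h5 := RX_col hc hT σ V (0 : T d L)
  rw [div_le_iff₀ (by norm_num)]
  have h6 : ∑ y, ‖A 0 y‖ ^ 2 ≤ (c ^ 2)⁻¹ := h4
  have h7 : ∑ y, ‖B y 0‖ ^ 2 ≤ (c ^ 2)⁻¹ := h5
  linarith

theorem mX_lip (hc : 0 < c) (h : Dis c X) {s t : ℝ} (hs : 0 ≤ s) (ht : 0 ≤ t) :
    ‖mX (fun k => X k - s * Complex.I) σ - mX (fun k => X k - t * Complex.I) σ‖ ≤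
      |s - t| * (c ^ 2)⁻¹ := by
  unfold mX
  rw [← integral_sub (RX_BC hc (Dis.shift h hs) σ (0 : T d L) 0).int
    (RX_BC hc (Dis.shift h ht) σ (0 : T d L) 0).int]
  have h1 := norm_integral_le_of_norm_le_const (μ := Γ (T d L))
    (Filter.Eventually.of_forall fun V => RX_shift_bd (σ := σ) hc h hs ht V)
  simpa using h1

/-- PIECE IBP. -/
theorem t_IBP : S_IBP := by
  intro d L _ X c σ hc h
  refine ⟨poin1 hc h, fun k => ⟨rr X σ k, ?_, rr_le hc h k⟩, mX_sum hc h, mX_im hc h, mX_bd hc h,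
    fun s t hs ht => mX_lip hc h hs ht⟩
  rw [mean2 hc h k, rr_eq hc h k]
  ring

end Pool.Agent.Run7.h824.V
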